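import Pool.Agent.U279.CR.Main

/-!
# Isomorphism of finite commutative rings: all known methods need dimension or degree `log n`

Isomorphism of finite commutative rings given by their addition and multiplication tables is a
special case of graph isomorphism which is decided in time `n ^ O(log n)` by trying the images of
`log n` generators, and no essentially better algorithm is known. For every prime `p` (also
`p = 2`), every `k ≥ 1` and every `m ≥ 48 k` there are two non-isomorphic commutative local rings
of characteristic `p`, of the same order `n = p ^ (36 m + 7)`, in which all products of three
nonunits vanish, such that the graphs of the pairs of tables (`2 n ^ 2` vertices, see `ringGraph`)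
are not isomorphic, but

* the `k`-dimensional Weisfeiler-Leman method does not distinguish them,
* the `k`-dimensional invertible-map test of Dawar and Holm over all fields of characteristic
  different from `p` does not distinguish them,
* the polynomial calculus over fields of characteristic different from `p` has no refutation of
  degree `k` of their isomorphism,
* the Positivstellensatz calculus has no refutation of degree `k` of their isomorphism.

As `k` can be a constant times `log n`, and dimension `O(log n)` suffices for rings of order `n`, this
is optimal up to a constant factor. The starting results of this problem treat groups (of class two)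
by alternating bilinear maps; rings of this kind that are not commutative correspond to the same
maps, but for commutative rings symmetric bilinear maps are needed.

Construction. The rings live on `F × A × B × Γ`, `Γ = F ^ 6`, with the usual addition and
`(a, x, c, z) (b, y, d, w) = (a b, a y + b x, a d + b c, a w + b z + f(x, y) + c(y) + d(x))`, where `B`
is the space of the linear maps `A → Γ` given by tuples `c` of functionals on `A` with
`∑ q i (c i) = 0`, for a family of six symmetric maps `q i` with expansion (random matrices
`R + Rᵀ`), and `f(x, y) = φ₀(x) c₀(y) + φ₀(y) c₀(x)` for one ring, `f = 0` for the other one. The
partial isomorphisms are the shears `(a, x, c, z) ↦ (a, x, c + M x, z)` for linear maps `M : A → B`,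
which respect a product if `M x y + M y x = f x y` for its factors; local solutions of this affine
system can be extended. The rings are not isomorphic: an isomorphism maps `B × Γ` to itself by a
dimension count, which gives a global solution `M`; but the trace of `∑ q i ∘ N i` is zero for skew
`N i` (in all characteristics, as `q i = R + Rᵀ`), and this excludes a global solution. An
isomorphism of the graphs respects the two kinds of vertices by degrees, it maps lines of the addition
table to lines, and all cases but those of a ring isomorphism are excluded by multiplication by zero.
-/

set_option autoImplicit false

namespace Pool.Agent.Results.MP_f1a348_lc.CommutativeRings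

open Pool.Agent.W185.SRG Pool.Agent.TH658.Sos Pool.Agent.U279.CR

theorem result (p : ℕ) (hp : p.Prime) (k m : ℕ) (hk : 1 ≤ k) (hm : 48 * k ≤ m) :
    ∃ (R S : Type) (_ : CommRing R) (_ : CommRing S) (_ : Fintype R) (_ : Fintype S),
      Fintype.card R = p ^ (36 * m + 7) ∧ Fintype.card S = p ^ (36 * m + 7) ∧
      LocalCubeZero p R ∧ LocalCubeZero p S ∧ IsEmpty (R ≃+* S) ∧
      IsEmpty (ringGraph R ≃g ringGraph S) ∧
      WLEquivalent k (ringGraph R) (ringGraph S) ∧
      IMEquiv p k (ringGraph R) (ringGraph S) ∧
      (∀ (K : Type) [Field K], (p : K) ≠ 0 → ¬ PCRefutes K (ringGraph R) (ringGraph S) k) ∧
      ¬ PosRefutes (ringGraph R) (ringGraph S) k :=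
  main p hp k m hk hm

end Pool.Agent.Results.MP_f1a348_lc.CommutativeRings
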