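import Pool.Agent.U444.WR.Main

/-!
# Isomorphism of 1-walk-regular graphs with five eigenvalues is GI-complete

Let `R` be the incidence relation of a `2`-design with block size `3` and `3 s` blocks through a
point. Replace every point by `s` copies: the graph with vertex set `(P × {1, …, s}) ⊔ B` is regular,
connected, bipartite and `1`-walk-regular, with the eigenvalues `0`, `± 3 s`, `± √(s (r - λ))`
(`Pool/Agent/U444/WR/Blow.lean`, `Pool/Agent/U444/WR/Eig.lean`), and it determines the design
(`Pool/Agent/U444/WR/Dec.lean`).  The encoding of a graph in a triple system with repeated blocks is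
the one of `Pool/Agent/U17/WR` (`Trade.lean`, `Enc.lean`).
-/

set_option autoImplicit false

namespace Pool.Agent.Results.MP_f1a348_lc.FiveEigenvalues

open Pool.Agent.NPC Pool.Agent.NPC.R671 Pool.Agent.Y815.GI

open Classical in
/-- The set of the distinct eigenvalues of the adjacency matrix of a finite graph. -/
noncomputable def eigenvalues {N : ℕ} (G : SimpleGraph (Fin N)) : Set ℝ :=
  spectrum ℝ (G.adjMatrix ℝ)

/-- All vertices of `G` have exactly `c` closed walks of length `m`, and from one end of an edge to
the other end there are exactly `d` walks of length `m`, for every edge and both directions. -/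
def Walks {N : ℕ} (G : SimpleGraph (Fin N)) (m c d : ℕ) : Prop :=
  (∀ v, {p : G.Walk v v | p.length = m}.ncard = c) ∧
    ∀ u v, G.Adj u v → {p : G.Walk u v | p.length = m}.ncard = d

/-- `1`-walk-regular graphs: for every `m`, the number of closed walks of length `m` at a vertex
does not depend on the vertex, and the number of walks of length `m` from one end of an edge to
the other end does not depend on the edge. -/
def OneWalkRegular {N : ℕ} (G : SimpleGraph (Fin N)) : Prop := ∀ m : ℕ, ∃ c d : ℕ, Walks G m c d

/-- The two graphs are `1`-walk-regular with the same numbers of walks (so they have the same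
spectrum, if they have equally many vertices). -/
def SameWalks {N M : ℕ} (G : SimpleGraph (Fin N)) (H : SimpleGraph (Fin M)) : Prop :=
  ∀ m : ℕ, ∃ c d : ℕ, Walks G m c d ∧ Walks H m c d

/-- The class of graphs: connected, bipartite, `1`-walk-regular, with at most five distinct
eigenvalues. -/
def InClass {N : ℕ} (G : SimpleGraph (Fin N)) : Prop :=
  G.Connected ∧ G.IsBipartite ∧ OneWalkRegular G ∧ (eigenvalues G).ncard ≤ 5

/-- Some polynomial-time algorithm decides isomorphism correctly on all pairs of graphs (given by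
their adjacency matrices) with the property `C`. -/
def IsoInP (C : ∀ n m : ℕ, SimpleGraph (Fin n) → SimpleGraph (Fin m) → Prop) : Prop :=
  ∃ D : List Bool → List Bool, PolyTime D ∧
    ∀ (n m : ℕ) (X : SimpleGraph (Fin n)) (Y : SimpleGraph (Fin m)), C n m X Y →
      (D (bits (adjMatrix X, adjMatrix Y)) = [true] ↔ Nonempty (X ≃g Y))

open Classical in
theorem eigs_eq {N : ℕ} (G : SimpleGraph (Fin N)) :
    Pool.Agent.U17.Eig.eigs G = eigenvalues G := Pool.Agent.U17.Eig.eigs_eq G

theorem main : ∃ f : List Bool → List Bool, PolyTime f ∧ ∀ x : List Bool,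
    ∃ (N : ℕ) (X' Y' : SimpleGraph (Fin N)),
      f x = bits (adjMatrix X', adjMatrix Y') ∧ InClass X' ∧ InClass Y' ∧ SameWalks X' Y' ∧
        (x ∈ lang GraphIso ↔ Nonempty (X' ≃g Y')) := by
  obtain ⟨f, hf, h⟩ := Pool.Agent.U444.WR.main
  refine ⟨f, hf, fun x => ?_⟩
  obtain ⟨N, X', Y', h1, ⟨a1, a2, a3⟩, ⟨b1, b2, b3⟩, h3, h4⟩ := h x
  rw [eigs_eq] at a3 b3
  refine ⟨N, X', Y', h1, ⟨a1, a2, fun m => ?_, a3⟩, ⟨b1, b2, fun m => ?_, b3⟩, h3, h4⟩
  · obtain ⟨c, d, h5, -⟩ := h3 m
    exact ⟨c, d, h5⟩
  · obtain ⟨c, d, -, h5⟩ := h3 m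
    exact ⟨c, d, h5⟩

theorem iff_of (C : ∀ n m : ℕ, SimpleGraph (Fin n) → SimpleGraph (Fin m) → Prop)
    (hC : ∀ (n : ℕ) (X Y : SimpleGraph (Fin n)), InClass X → InClass Y → SameWalks X Y →
      C n n X Y) : InPP GraphIso ↔ IsoInP C := by
  constructor
  · rintro ⟨D, hD, hD'⟩
    exact ⟨D, hD, fun n m X Y _ => (hD' _).symm.trans (bits_mem X Y)⟩
  · rintro ⟨D, hD, hD'⟩
    obtain ⟨f, hf, hf'⟩ := main
    refine ⟨fun x => D (f x), Pool.Agent.H642R2.TMSim.polyTime_comp hD hf, fun x => ?_⟩
    obtain ⟨N, X', Y', h1, h2, h3, h4, h5⟩ := hf' x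
    show x ∈ lang GraphIso ↔ D (f x) = [true]
    rw [h5, h1, hD' N N X' Y' (hC _ _ _ h2 h3 h4)]

/-- **Isomorphism of `1`-walk-regular graphs is GI-complete**, even for pairs of connected
bipartite graphs of the same order with at most five distinct eigenvalues and the same numbers of
walks.

* There is a polynomial-time computable function `f` on bit strings such that, for *every* bit
  string `x`, the value `f x` codes a pair of adjacency matrices of connected bipartite
  `1`-walk-regular graphs `X'`, `Y'` of the same order, with at most five distinct eigenvalues and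
  with the same numbers of walks, and `x` is a yes-instance of the graph isomorphism problem for
  arbitrary graphs iff `X'` and `Y'` are isomorphic.
* So graph isomorphism is in P iff isomorphism of `1`-walk-regular graphs is decidable in
  polynomial time; iff this is so for the connected bipartite `1`-walk-regular graphs with at most
  five distinct eigenvalues; and iff it is so for the pairs of such graphs of the same order with
  the same numbers of walks. -/
theorem result :
    (∃ f : List Bool → List Bool, PolyTime f ∧ ∀ x : List Bool,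
      ∃ (N : ℕ) (X' Y' : SimpleGraph (Fin N)),
        f x = bits (adjMatrix X', adjMatrix Y') ∧ InClass X' ∧ InClass Y' ∧ SameWalks X' Y' ∧
          (x ∈ lang GraphIso ↔ Nonempty (X' ≃g Y'))) ∧
    (InPP GraphIso ↔ IsoInP fun _ _ X Y => OneWalkRegular X ∧ OneWalkRegular Y) ∧
    (InPP GraphIso ↔ IsoInP fun _ _ X Y => InClass X ∧ InClass Y) ∧
    (InPP GraphIso ↔ IsoInP fun n m X Y => n = m ∧ InClass X ∧ InClass Y ∧ SameWalks X Y) :=
  ⟨main, iff_of _ fun _ _ _ h1 h2 _ => ⟨h1.2.2.1, h2.2.2.1⟩, iff_of _ fun _ _ _ h1 h2 _ => ⟨h1, h2⟩,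
    iff_of _ fun _ _ _ h1 h2 h3 => ⟨rfl, h1, h2, h3⟩⟩

end Pool.Agent.Results.MP_f1a348_lc.FiveEigenvalues
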