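import Pool.Agent.U444.AS.Main2

/-!
# Association schemes with four classes are as hard as all graphs

Let `M` be a square `0,1`-matrix, with rows `R` and columns `C`.  Take the grid `R × C`, replace
every point by `16` points, and put on these the `4 × 4` rook graph if the entry of `M` is `1`, the
Shrikhande graph if it is `0` (these two graphs are strongly regular with the same parameters
`(16, 6, 2, 2)`).  The pairs of equal points, of adjacent and of nonadjacent points of a fibre, of
points of different fibres in the same row or column, and of points of other fibres are the classes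
of a symmetric association scheme, with intersection numbers which depend only on the order of
`M` (`Pool/Agent/U444/AS/Sch.lean`).  The scheme, and even the graph given by two of its classes,
determines `M` up to permutations of the rows, permutations of the columns and transposition
(`Pool/Agent/U444/AS/Grid.lean`, `Dec.lean`).  The matrix of a graph with the vertex set `V` is the
matrix with rows and columns `V × V` of `Pool/Agent/U444/AS/Inc.lean`; it determines the graph.
Local isomorphisms between two graphs give local isomorphisms between their schemes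
(`Pool/Agent/U444/AS/Loc.lean`), so the known general methods fail on a level which is a quarter of
the level for the graphs; the graphs are the undistinguished pairs of `Pool/Agent/U16/OR`.
-/

set_option autoImplicit false

namespace Pool.Agent.Results.MP_f1a348_lc.FourClassSchemes

open Pool.Agent.NPC Pool.Agent.NPC.R671 Pool.Agent.Y815.GI Pool.Agent.TH658.Sos
  Pool.Agent.W185.SRG

/-- The colouring `c` of the pairs of the points `1, …, N` with the colours `0, …, 4` is a symmetric
association scheme with four classes and the intersection numbers `p`: the pairs of colour `0` are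
the pairs `(x, x)`, the colouring is symmetric, all colours occur, and for every pair `(x, y)` of
colour `k` there are exactly `p k i j` points `z` such that `(x, z)` has colour `i` and `(z, y)` has
colour `j`. -/
structure IsScheme {N : ℕ} (c : Fin N → Fin N → Fin 5) (p : Fin 5 → Fin 5 → Fin 5 → ℕ) : Prop where
  diag : ∀ x y, c x y = 0 ↔ x = y
  symm : ∀ x y, c x y = c y x
  surj : ∀ i, ∃ x y, c x y = i
  inter : ∀ x y i j, {z | c x z = i ∧ c z y = j}.ncard = p (c x y) i j

/-- The graph is the union of the classes `1` and `3` of the scheme. -/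
def IsUnion {N : ℕ} (G : SimpleGraph (Fin N)) (c : Fin N → Fin N → Fin 5) : Prop :=
  ∀ x y, G.Adj x y ↔ c x y = 1 ∨ c x y = 3

/-- The graph is a union of two classes of a symmetric association scheme with four classes. -/
def FourClass {N : ℕ} (G : SimpleGraph (Fin N)) : Prop :=
  ∃ c p, IsScheme c p ∧ IsUnion G c

/-- The two graphs, on the same set, are given by the same two classes of two symmetric association
schemes with four classes with the same intersection numbers, and every isomorphism of the graphs
is an isomorphism of the schemes (with the numbers of the classes). -/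
def SameNumbers {N M : ℕ} (G : SimpleGraph (Fin N)) (H : SimpleGraph (Fin M)) : Prop :=
  N = M ∧ ∃ c d p, IsScheme c p ∧ IsScheme d p ∧ IsUnion G c ∧ IsUnion H d ∧
    ∀ φ : G ≃g H, ∀ x y, d (φ x) (φ y) = c x y

/-- The two graphs are not distinguished by the `k`-dimensional Weisfeiler-Leman method, nor by the
`k`-dimensional invertible-map test (over the fields of characteristic different from `2`), and
their isomorphism has no refutation of degree `k` in the polynomial calculus over a field of
characteristic different from `2` or in the Positivstellensatz calculus. -/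
def Undistinguished (k : ℕ) {N : ℕ} (G H : SimpleGraph (Fin N)) : Prop :=
  WLEquivalent k G H ∧ IMEquiv 2 k G H ∧
    (∀ (K : Type) [Field K], (2 : K) ≠ 0 → ¬ PCRefutes K G H k) ∧ ¬ PosRefutes G H k

/-- Some polynomial-time algorithm decides isomorphism correctly on all pairs of graphs (given by
their adjacency matrices) with the property `C`. -/
def IsoInP (C : ∀ n m : ℕ, SimpleGraph (Fin n) → SimpleGraph (Fin m) → Prop) : Prop :=
  ∃ D : List Bool → List Bool, PolyTime D ∧
    ∀ (n m : ℕ) (X : SimpleGraph (Fin n)) (Y : SimpleGraph (Fin m)), C n m X Y →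
      (D (bits (adjMatrix X, adjMatrix Y)) = [true] ↔ Nonempty (X ≃g Y))

theorem conv {N : ℕ} {X Y : SimpleGraph (Fin N)} (h : Pool.Agent.U444.AS.Pair X Y) :
    SameNumbers X Y := by
  obtain ⟨c, d, p, h1, h2, h3, h4, h5⟩ := h
  exact ⟨rfl, c, d, p, ⟨h1.diag, h1.symm, h1.surj, h1.inter⟩,
    ⟨h2.diag, h2.symm, h2.surj, h2.inter⟩, h3, h4, h5⟩

theorem und {N k : ℕ} {X Y : SimpleGraph (Fin N)} (h : Pool.Agent.U16.OR.Loc 2 k X Y) :
    Undistinguished k X Y :=
  ⟨h.wl, h.im, fun K _ hK => h.pc K (by exact_mod_cast hK), h.pos⟩

theorem main : ∃ f : List Bool → List Bool, PolyTime f ∧ ∀ x : List Bool,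
    ∃ (n N : ℕ) (X' Y' : SimpleGraph (Fin N)), N = 16 * n ^ 4 ∧
      f x = bits (adjMatrix X', adjMatrix Y') ∧ SameNumbers X' Y' ∧
      (x ∈ lang GraphIso ↔ Nonempty (X' ≃g Y')) ∧
      ∀ k, 65536 * ((4 * k + 3) * (Nat.log 2 (4 * k + 3) + 1)) ≤ n → Undistinguished k X' Y' := by
  obtain ⟨f, hf, h⟩ := Pool.Agent.U444.AS.main2
  refine ⟨f, hf, fun x => ?_⟩
  obtain ⟨n, N, X', Y', h1, h2, h3, h4, h5⟩ := h x
  exact ⟨n, N, X', Y', h1, h2, conv h3, h4, fun k hk => und (h5 k hk)⟩

theorem iff_of (C : ∀ n m : ℕ, SimpleGraph (Fin n) → SimpleGraph (Fin m) → Prop)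
    (hC : ∀ (n : ℕ) (X Y : SimpleGraph (Fin n)), SameNumbers X Y → C n n X Y) :
    InPP GraphIso ↔ IsoInP C := by
  constructor
  · rintro ⟨D, hD, hD'⟩
    exact ⟨D, hD, fun n m X Y _ => (hD' _).symm.trans (bits_mem X Y)⟩
  · rintro ⟨D, hD, hD'⟩
    obtain ⟨f, hf, hf'⟩ := main
    refine ⟨fun x => D (f x), Pool.Agent.H642R2.TMSim.polyTime_comp hD hf, fun x => ?_⟩
    obtain ⟨n, N, X', Y', -, h1, h2, h3, -⟩ := hf' x
    show x ∈ lang GraphIso ↔ D (f x) = [true]
    rw [h3, h1, hD' N N X' Y' (hC _ _ _ h2)]

/-- **Isomorphism of association schemes with four classes is GI-complete, and the known methods fail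
on them.**

* There is a polynomial-time computable function `f` on bit strings such that, for *every* bit
  string `x`, the value `f x` codes a pair of graphs `X'`, `Y'` on `16 n ^ 4` vertices, given by the
  same two classes of two symmetric association schemes with four classes and with the same
  intersection numbers; every isomorphism of the graphs is an isomorphism of the schemes; `x` is a
  yes-instance of the graph isomorphism problem for arbitrary graphs iff `X'` and `Y'` are
  isomorphic; and the pair is undistinguished on the level `k` whenever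
  `65536 (4 k + 3) (log (4 k + 3) + 1) ≤ n`.
* So graph isomorphism is in P iff isomorphism of graphs which are unions of two classes of
  symmetric association schemes with four classes is decidable in polynomial time, and iff this
  is so for the pairs with the same intersection numbers.
* For infinitely many `n` there are two non-isomorphic graphs of this kind, on `16 n ^ 4` vertices
  and with the same intersection numbers, which are undistinguished on all these levels `k`. -/
theorem result :
    (∃ f : List Bool → List Bool, PolyTime f ∧ ∀ x : List Bool,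
      ∃ (n N : ℕ) (X' Y' : SimpleGraph (Fin N)), N = 16 * n ^ 4 ∧
        f x = bits (adjMatrix X', adjMatrix Y') ∧ SameNumbers X' Y' ∧
        (x ∈ lang GraphIso ↔ Nonempty (X' ≃g Y')) ∧
        ∀ k, 65536 * ((4 * k + 3) * (Nat.log 2 (4 * k + 3) + 1)) ≤ n →
          Undistinguished k X' Y') ∧
    (InPP GraphIso ↔ IsoInP fun _ _ X Y => FourClass X ∧ FourClass Y) ∧
    (InPP GraphIso ↔ IsoInP fun _ _ X Y => SameNumbers X Y) ∧
    ∀ m : ℕ, ∃ (n N : ℕ) (X' Y' : SimpleGraph (Fin N)), m ≤ n ∧ N = 16 * n ^ 4 ∧
      SameNumbers X' Y' ∧ IsEmpty (X' ≃g Y') ∧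
      ∀ k, 65536 * ((4 * k + 3) * (Nat.log 2 (4 * k + 3) + 1)) ≤ n → Undistinguished k X' Y' :=
  ⟨main, iff_of _ fun _ _ _ h => by
    obtain ⟨-, c, d, p, h1, h2, h3, h4, -⟩ := h
    exact ⟨⟨c, p, h1, h3⟩, ⟨d, p, h2, h4⟩⟩, iff_of _ fun _ _ _ h => h, fun m => by
    obtain ⟨n, N, X', Y', h0, h1, h2, h3, h4⟩ := Pool.Agent.U444.AS.exists_pair m
    exact ⟨n, N, X', Y', h0, h1, conv h2, h3, fun k hk => und (h4 k hk)⟩⟩

end Pool.Agent.Results.MP_f1a348_lc.FourClassSchemes
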