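import Pool.Agent.TH658.Dg.TMain

/-!
# Algebraic proofs of non-isomorphism of tournaments need linear degree, over every field

The isomorphism of tournaments is a special case of graph isomorphism (it reduces to it in polynomial
time) that is decided in time `n ^ O(log n)` (Babai and Luks). For every `d ≥ 1` there are two
non-isomorphic tournaments on at most `C d` vertices such that for the system of polynomial equations
which says that the tournaments are isomorphic

* the polynomial calculus has no refutation of degree `d` over any field at all (the same two
  tournaments for all fields and all characteristics),
* the Positivstellensatz calculus (so also sum-of-squares proofs, the Lasserre hierarchy) has no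
  refutation of degree `d`.

So all these proof systems need degree of order `n` on tournaments with `n` vertices, although the
automorphism groups of tournaments have odd order, so that the usual pairs of graphs (twisted linear
systems modulo two) are not available. The tournaments come from linear systems modulo `15` for the
flows on an expander: the systems are rigid for the prime `3` and for the prime `5` separately, and
averages over the local solutions modulo `3` give the dual objects over the fields of characteristic
different from `3`, averages over those modulo `5` the dual objects in characteristic `3`.

Definitions used in the statement: `IsoAxiom` (`Pool/Agent/TH658/Dg/Defs.lean`), `PCDerives`,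
`PCRefutes`, `PosRefutes` (`Pool/Agent/TH658/Dg/PcDefs.lean`), `IsTournament`
(`Pool/Agent/TH658/Dg/Tour.lean`). The proof is the one of the library `Pool/Agent/TH658/Dg` (helper658).
-/

set_option autoImplicit false

namespace Pool.Agent.Results.MP_f1a348_lc.TournamentProofs

open Pool.Agent.TH658.Dg

/-- There is a constant `C` such that for every `d ≥ 1` there are two non-isomorphic tournaments on at
most `C d` vertices whose isomorphism is refuted in degree `d` neither by the polynomial calculus over
any field nor by the Positivstellensatz calculus. -/
theorem result : ∃ C : ℕ, ∀ d : ℕ, 1 ≤ d →
    ∃ (V : Type) (_ : Fintype V) (T T' : V → V → Prop),
      Fintype.card V ≤ C * d ∧ IsTournament T ∧ IsTournament T' ∧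
      (¬ ∃ φ : V ≃ V, ∀ x y, T x y ↔ T' (φ x) (φ y)) ∧
      (∀ (K : Type) [Field K], ¬ PCRefutes K T T' d) ∧ ¬ PosRefutes T T' d :=
  ⟨10 ^ 18, mainProofs⟩

end Pool.Agent.Results.MP_f1a348_lc.TournamentProofs
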